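import Pool.Agent.H13.PnF

set_option autoImplicit false

namespace Pool.Agent.Results.MP_daa8b9_co.Szegedy

open Pool.Agent.H13.Pn

/-- Szegedy's question has a negative answer: it is not true that for every connected plane cubic
graph the number of 3-edge-colourings divides the value at `-1` of the Penrose polynomial. There is
even a simple such graph, with 14 vertices and 21 edges, that has 54 3-edge-colourings and Penrose
polynomial value `-78966` at `-1`. -/
theorem result :
    (¬ ∀ (E : Type) [Fintype E] [DecidableEq E] (M : PlaneCubic E),
      (M.numEdgeColourings : ℤ) ∣ M.penrose.eval (-1)) ∧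
    ∃ M : PlaneCubic (Fin 21), M.Simple ∧ M.numEdgeColourings = 54 ∧
      M.penrose.eval (-1) = -78966 := by
  refine ⟨?_, Gr, simple, num_col, penrose_val⟩
  intro h
  have h1 := h (Fin 21) Gr
  rw [num_col, penrose_val] at h1
  revert h1
  decide

end Pool.Agent.Results.MP_daa8b9_co.Szegedy
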